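import Pool.Agent.Lib.MP_305fdd_al.F8.D7.Defs
import Pool.Agent.Lib.MP_305fdd_al.F8.AB.DefsT

/-!
# MP_305fdd_al, once-punctured torus bundles with monodromy `(L² R)ⁿ`: the blocks

MAIN RESULT (`S_rig7`): the groups `GA (al7 ^ n)`, `n ≥ 1`, are profinitely rigid.

Blocks: NT and NA for all positive monodromies (`AB/DefsT.lean`), E7, G7, link (`lk7`), H7, Loc7.
-/

set_option autoImplicit false

namespace Pool.Agent.F8.D7

open Pool.Agent.MP_305fdd_al Pool.Agent.Lib.MP_305fdd_al Pool.Agent.F2X Pool.Agent.F8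
  Pool.Agent.F8.HN Pool.Agent.F8.AB
open scoped QuadraticAlgebra

/-- BLOCK E7: from characters to matrices.

Input: a representation `s` over an algebraically closed field of characteristic zero with character in `Z7 = O7[s]`, such
that the character values are in `O7` (elements of type 0: `χ l = 1`) or in `s O7` (type 1), with elements of type 1, irreducible
on the subgroup `χ.ker`, and locally (modulo all `m`) a representation of `χ.ker` over `O7 / m` with the right character.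
Output: `ρ : Λ → SL₂(Z7)` with character `T`, `ρ l = [[a, s b], [s c, d]]` for type 0 and `[[s a, b], [c, s d]]` for type 1.

Proof. (1) Splitting and integrality for `Λ⁰ = χ.ker` over `O7` (block E with `O7` instead of `ℤ[ω]`): a representation
`ρ⁰ : Λ⁰ → SL₂(O7)` with character `T₀` (`T l = c7 (T₀ l)`). With `α = T₀(g)² - 4`, `β = T₀([g,h]) - 2`: the equation `α x² + β y² = z²` is
solvable modulo all powers of all primes of `O7` (also the dyadic primes `δ`, `-1 - δ`: the three values of `y` all divisible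
by `π^j` give `2 I = 0` modulo `π^j`, `4 α = 0` modulo `π^(2j)`). Legendre descent over the Euclidean ring `O7` (covering radius
`√(4/7)`: every class modulo `b` contains `r` with `N(r) ≤ (4/7) N(b)`, so `|b₁| ≤ (4/7) |b| + 1 < |b|` for `N(b) ≥ 6`); the base cases are
`a, b ∈ {±1, ±δ, ±δ', ±2}` up to squares, `N ≤ 5` (finite check; the insoluble pairs are insoluble modulo a power of a dyadic prime).
(2) By Brauer-Nesbitt (`H.S_bn`) we may conjugate `s` so that `s l = j (c7 (ρ⁰ l))` for `l ∈ Λ⁰`. Let `σ = j (ss ℤ)`, `σ² = j (c7 δ)`. Put `s' l = s l` for type 0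
and `s' l = σ s l` for type 1; `s' l s' m = c s' (l m)`, `c ∈ {1, δ}`. For type 1 and `g ∈ Λ⁰`: `tr (s' l s g) = σ j (T (l g)) ∈ j (δ O7)`. As `Λ⁰` is
irreducible, `s' l` has entries in `K = Frac (j c7 O7)`, with a common denominator. `M` = the `O7`-span of the `s' l e₁` is a lattice, free
of rank 2, stable under all `s' l`; in a basis of `M` the `s' l` are integral matrices of determinant `1` (type 0), `δ` (type 1).
For type 1 `M₁ = s' l M` does not depend on `l` (`s' l g M = s' l M` for `g ∈ Λ⁰`), `M ⊃ M₁ ⊃ δ M`, `M / M₁ ≅ O7 / δ`. There is a basis `e₁, e₂` of `M` with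
`M₁ = ⟨e₁, δ e₂⟩`; in this basis `s' l = [[a, b], [δ c, d]]` for type 0 and `[[δ a, b], [δ c, δ d]]` for type 1. Conjugate with `diag(σ, 1)`: `s l` becomes
`[[a, σ b], [σ c, d]]` resp. `[[σ a, b], [c, σ d]]`. -/
def S_E7 : Prop := ∀ (Λ : Type) [Group Λ] (Om : Type) [Field Om] [IsAlgClosed Om] [CharZero Om]
  (j : Z7 →+* Om), Function.Injective j → ∀ (s : Λ →* SL2 Om) (T : Λ → Z7),
  (∀ l, tr (s l) = j (T l)) → ∀ χ : Λ →* Multiplicative (ZMod 2),
  (∀ l, χ l = 1 → sg ℤ (T l) = T l) → (∀ l, χ l ≠ 1 → sg ℤ (T l) = -T l) → (∃ l, χ l ≠ 1) →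
  Irr (s.comp χ.ker.subtype) →
  (∀ m : ℕ, 0 < m → ∃ r : χ.ker →* SL2 (E7 (ZMod m)), ∀ l : χ.ker, ∃ t : O7, T l = c7 t ∧
    tr (r l) = E7m (Int.castRingHom (ZMod m)) t) →
  ∃ ρ : Λ →* SL2 Z7, (∀ l, tr (ρ l) = T l) ∧ (∀ l, χ l = 1 → tw (sg ℤ) (ρ l) = ρ l) ∧
    ∀ l, χ l ≠ 1 → tw (sg ℤ) (ρ l) = -ρ l

/-! ### The link -/

/-- the reduction `S7 R → S7 S` -/
def S7m {R S : Type} [CommRing R] [CommRing S] (f : R →+* S) : S7 R →+* S7 S :=
  evs ((algebraMap (E7 S) (S7 S)).comp ((algebraMap S (E7 S)).comp f)) (ss S) (ss_eq S)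

/-- BLOCK lk7: the output of the transfer satisfies the assumptions of block E7. -/
def S_lk7 : Prop := ∀ (n : ℕ) (Λ : Type) [Group Λ] (Φ : NatBij (GA (al7 ^ n)) Λ)
  (nL : Λ →* Multiplicative ℤ), Function.Surjective nL → CmG Φ (nA (al7 ^ n)) nL →
  ∀ (T : Λ → Z7) (s : Λ →* SL2 (AlgebraicClosure ℚ)) (j : Z7 →+* AlgebraicClosure ℚ),
  OutA (r7 n) Φ nL T s j → ∃ χ : Λ →* Multiplicative (ZMod 2),
  (∀ l, χ l = 1 → sg ℤ (T l) = T l) ∧ (∀ l, χ l ≠ 1 → sg ℤ (T l) = -T l) ∧ (∃ l, χ l ≠ 1) ∧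
  Irr (s.comp χ.ker.subtype) ∧
  ∀ m : ℕ, 0 < m → ∃ r : χ.ker →* SL2 (E7 (ZMod m)), ∀ l : χ.ker, ∃ t : O7, T l = c7 t ∧
    tr (r l) = E7m (Int.castRingHom (ZMod m)) t

/-! ### The conclusion -/

/-- BLOCK H7 -/
def S_fst7 : Prop := ∀ (n : ℕ) (Λ : Type) [Group Λ] (Φ : NatBij (GA (al7 ^ n)) Λ)
  (nL : Λ →* Multiplicative ℤ), Function.Surjective nL → CmG Φ (nA (al7 ^ n)) nL →
  (∀ f : Λ →* Multiplicative ℤ, nL.ker ≤ f.ker) → ∀ ρ : Λ →* SL2 Z7,
  (∀ l, ρ l ∈ NN7) →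
  (∀ (S : Type) [CommRing S] [Finite S] (h : Z7 →+* S) (l : Λ),
    h (tr (ρ l)) = tr (Φ.toFun _ ((SLm h).comp (r7 n)) l)) →
  ∀ Ψ : NN7 →* N2A kp7, (∀ x : NN7, Th7 (Ψ x) = pj Z7 x.val) →
  ∃ h : nL.ker →* F, (∀ (l : Λ) (x : nL.ker), h x = 1 → h (MulAut.conjNormal l x) = 1) ∧
    ¬ IsCyclic h.range

/-- the class of the monodromy is determined locally -/
def S_Loc7 : Prop := ∀ n : ℕ, 1 ≤ n → Loc (al7 ^ n)

/-- MAIN RESULT for `d = 7` -/
def S_rig7 : Prop := ∀ n : ℕ, 1 ≤ n → ProfinitelyRigid (GA (al7 ^ n))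

end Pool.Agent.F8.D7
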