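import Pool.Agent.Lib.MP_305fdd_al.F8.D7.Defs

/-!
# MP_305fdd_al, `d = 7`: `Z7` is an order
-/

set_option autoImplicit false

namespace Pool.Agent.F8.D7

open Pool.Agent.MP_305fdd_al Pool.Agent.Lib.MP_305fdd_al Pool.Agent.F2X Pool.Agent.F8
  Pool.Agent.F8.HN Pool.Agent.F8.AB
open scoped QuadraticAlgebra

/-- the norm form of `O7` -/
def n7 (z : O7) : ℤ := z.re * z.re - z.re * z.im + 2 * (z.im * z.im)

theorem n7_mul (z w : O7) : n7 (z * w) = n7 z * n7 w := by
  unfold n7
  rw [QuadraticAlgebra.re_mul, QuadraticAlgebra.im_mul]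
  ring

theorem n7_nonneg (z : O7) : 0 ≤ n7 z := by
  unfold n7
  nlinarith [sq_nonneg (2 * z.re - z.im), sq_nonneg z.im]

theorem n7_eq_zero {z : O7} (h : n7 z = 0) : z = 0 := by
  unfold n7 at h
  have h1 : (2 * z.re - z.im) ^ 2 + 7 * z.im ^ 2 = 0 := by linear_combination 4 * h
  have h2 : z.im = 0 := by
    have : z.im ^ 2 = 0 := by nlinarith [sq_nonneg (2 * z.re - z.im), sq_nonneg z.im]
    exact pow_eq_zero_iff (two_ne_zero) |>.1 this
  have h3 : z.re = 0 := by
    rw [h2] at h
    have : z.re ^ 2 = 0 := by linear_combination h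
    exact pow_eq_zero_iff (two_ne_zero) |>.1 this
  apply QuadraticAlgebra.ext
  · exact h3
  · exact h2

theorem n7_zero : n7 0 = 0 := rfl

instance : NoZeroDivisors O7 where
  eq_zero_or_eq_zero_of_mul_eq_zero {a b} h := by
    have h1 : n7 a * n7 b = 0 := by rw [← n7_mul, h]; rfl
    rcases mul_eq_zero.1 h1 with h2 | h2
    · exact Or.inl (n7_eq_zero h2)
    · exact Or.inr (n7_eq_zero h2)

instance : Nontrivial O7 := ⟨⟨0, 1, fun h => by
  have := congrArg QuadraticAlgebra.re h
  exact absurd this (by decide)⟩⟩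

instance : IsDomain O7 := NoZeroDivisors.to_isDomain O7

/-- `δ` is not a square -/
theorem dl_sq (x y : O7) (h : x * x = dl ℤ * (y * y)) : x = 0 ∧ y = 0 := by
  have h1 : n7 x * n7 x = 2 * (n7 y * n7 y) := by
    have := congrArg n7 h
    rw [n7_mul, n7_mul, n7_mul] at this
    rw [this]
    rfl
  have h2 : n7 y = 0 := by
    by_contra hy
    have hy' : (n7 y : ℤ) ≠ 0 := hy
    -- irrationality of the square root of two
    have h3 : Irrational (Real.sqrt 2) := irrational_sqrt_two
    apply h3
    refine ⟨(n7 x : ℚ) / n7 y, ?_⟩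
    have hpos : (0 : ℝ) < n7 y := by
      have := n7_nonneg y
      exact_mod_cast lt_of_le_of_ne this (Ne.symm hy')
    have hx : (0 : ℝ) ≤ n7 x := by exact_mod_cast n7_nonneg x
    push_cast
    symm
    rw [Real.sqrt_eq_iff_mul_self_eq (by norm_num) (by positivity)]
    have h4 : (n7 x : ℝ) * n7 x = 2 * (n7 y * n7 y) := by exact_mod_cast h1
    field_simp
    linear_combination -h4
  have h5 : n7 x = 0 := by
    rw [h2] at h1
    simpa using h1
  exact ⟨n7_eq_zero h5, n7_eq_zero h2⟩

instance : NoZeroDivisors Z7 where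
  eq_zero_or_eq_zero_of_mul_eq_zero {a b} h := by
    have hr := congrArg QuadraticAlgebra.re h
    have hi := congrArg QuadraticAlgebra.im h
    rw [QuadraticAlgebra.re_mul] at hr
    rw [QuadraticAlgebra.im_mul] at hi
    have hr' : a.re * b.re + dl ℤ * a.im * b.im = 0 := hr
    have hi' : a.re * b.im + a.im * b.re + 0 * a.im * b.im = 0 := hi
    -- the norm of `a` kills `b`
    have e1 : (a.re * a.re - dl ℤ * (a.im * a.im)) * b.re = 0 := by
      linear_combination a.re * hr' - dl ℤ * a.im * hi'
    have e2 : (a.re * a.re - dl ℤ * (a.im * a.im)) * b.im = 0 := by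
      linear_combination a.re * hi' - a.im * hr'
    by_cases hN : a.re * a.re - dl ℤ * (a.im * a.im) = 0
    · left
      obtain ⟨h1, h2⟩ := dl_sq a.re a.im (by linear_combination hN)
      exact QuadraticAlgebra.ext h1 h2
    · right
      exact QuadraticAlgebra.ext ((mul_eq_zero.1 e1).resolve_left hN)
        ((mul_eq_zero.1 e2).resolve_left hN)

instance : Nontrivial Z7 := ⟨⟨0, 1, fun h => by
  have := congrArg (fun z : Z7 => z.re.re) h
  exact absurd this (by decide)⟩⟩

instance : IsDomain Z7 := NoZeroDivisors.to_isDomain Z7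

instance : CharZero Z7 where
  cast_injective m n h := by
    have := congrArg (fun z : Z7 => z.re.re) h
    simpa using this

instance : Module.Free ℤ Z7 := Module.Free.trans (R := ℤ) (S := O7) (M := Z7)

instance : Module.Finite ℤ Z7 := Module.Finite.trans (R := ℤ) O7 Z7

theorem Z7_two : (-2 : Z7) ≠ 2 := by
  intro h
  have := congrArg (fun z : Z7 => z.re.re) h
  simp at this

end Pool.Agent.F8.D7
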