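import Pool.Agent.Lib.MP_305fdd_al.F8.D7.Stm
import Pool.Agent.Lib.MP_305fdd_al.F8.StmC

/-!
# MP_305fdd_al, `d = 7`: the link between the transfer and block E7
-/

set_option autoImplicit false

namespace Pool.Agent.F8.D7

open Pool.Agent.MP_305fdd_al Pool.Agent.Lib.MP_305fdd_al Pool.Agent.F2X Pool.Agent.F8
  Pool.Agent.F8.HN Pool.Agent.F8.AB
open scoped QuadraticAlgebra

/-! ### Signs -/

section sgn

variable {R S : Type} [CommRing R] [CommRing S]

/-- the homomorphism `C₂ → SL₂(R)` -/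
def sgn (R : Type) [CommRing R] : Multiplicative (ZMod 2) →* SL2 R :=
  kZ (-1 : SL2 R) (by rw [neg_mul_neg, one_mul])

theorem sgn_one : sgn R 1 = 1 := map_one _
theorem sgn_ne {e : Multiplicative (ZMod 2)} (he : e ≠ 1) : sgn R e = -1 := by
  show (if Multiplicative.toAdd e = 0 then (1 : SL2 R) else -1) = -1
  rw [if_neg]
  exact he

/-- the product with the sign -/
def mus (R : Type) [CommRing R] : SL2 R × Multiplicative (ZMod 2) →* SL2 R where
  toFun x := x.1 * sgn R x.2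
  map_one' := by
    show (1 : SL2 R) * sgn R 1 = 1
    rw [sgn_one, one_mul]
  map_mul' x y := by
    show x.1 * y.1 * sgn R (x.2 * y.2) = x.1 * sgn R x.2 * (y.1 * sgn R y.2)
    rw [map_mul]
    have hc : sgn R x.2 * y.1 = y.1 * sgn R x.2 := by
      by_cases h : x.2 = 1
      · rw [h, sgn_one, one_mul, mul_one]
      · rw [sgn_ne h, neg_one_mul, mul_neg, mul_one]
    calc x.1 * y.1 * (sgn R x.2 * sgn R y.2) = x.1 * (y.1 * sgn R x.2) * sgn R y.2 := by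
          simp only [mul_assoc]
      _ = x.1 * (sgn R x.2 * y.1) * sgn R y.2 := by rw [hc]
      _ = _ := by simp only [mul_assoc]

theorem mus_one (g : SL2 R) : mus R (g, 1) = g := by
  show g * sgn R 1 = g
  rw [sgn_one, mul_one]

theorem mus_ne (g : SL2 R) {e : Multiplicative (ZMod 2)} (he : e ≠ 1) : mus R (g, e) = -g := by
  show g * sgn R e = -g
  rw [sgn_ne he, mul_neg, mul_one]

theorem SLm_neg1 (f : R →+* S) (g : SL2 R) : SLm f (-g) = -SLm f g := by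
  apply G.SL_ext <;> simp [SLm, Matrix.SpecialLinearGroup.map_apply_coe]

theorem mus_map (f : R →+* S) (x : SL2 R × Multiplicative (ZMod 2)) :
    SLm f (mus R x) = mus S (SLm f x.1, x.2) := by
  by_cases h : x.2 = 1
  · have h1 : x = (x.1, 1) := by rw [← h]
    rw [h1, mus_one, mus_one]
  · have h1 : x = (x.1, x.2) := rfl
    rw [h1, mus_ne _ h, mus_ne _ h, SLm_neg1]

theorem tw_id_map (σ : R →+* R) (g : SL2 R) :
    SLm σ g = tw (RingHom.id R) (tw σ g) := by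
  rw [tw_apply σ g, tw_mx]
  apply G.SL_ext
  · rfl
  · show σ _ = - -σ _
    rw [neg_neg]
  · show σ _ = - -σ _
    rw [neg_neg]
  · rfl

theorem tw_id_SLm (f : R →+* S) (g : SL2 R) :
    SLm f (tw (RingHom.id R) g) = tw (RingHom.id S) (SLm f g) := by
  rw [tw_apply, mx_map, tw_apply]
  apply mx_congr
  · rfl
  · show f (-_) = -f _
    rw [map_neg]; rfl
  · show f (-_) = -f _
    rw [map_neg]; rfl
  · rfl

end sgn

/-- the sign of the generators of `G7` -/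
def ch0 : G7 →* Multiplicative (ZMod 2) :=
  liftA (liF (Multiplicative.ofAdd 1) (Multiplicative.ofAdd 1)) 1 (by
    apply compat
    · rw [al7_ga]
      simp only [map_mul, map_inv, liF_ga, liF_gb]
      decide
    · rw [al7_gb, liF_ga, liF_gb]
      decide)

theorem ch7_eq (n : ℕ) (g : GA (al7 ^ n)) : ch7 n g = ch0 (toA al7 n g) := rfl

theorem ch0_ga : ch0 (iA al7 ga) = Multiplicative.ofAdd 1 := by
  unfold ch0; rw [liftA_iA, liF_ga]
theorem ch0_gb : ch0 (iA al7 gb) = Multiplicative.ofAdd 1 := by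
  unfold ch0; rw [liftA_iA, liF_gb]
theorem ch0_t : ch0 (tA al7) = 1 := by
  unfold ch0; rw [liftA_tA]

/-- the type of the values of `rho7` -/
theorem tw_rho7 {R : Type} [CommRing R] (σ : R →+* R) (s : R) (hs : s ^ 4 + s ^ 2 + 2 = 0)
    (hσ : σ s = -s) (x : G7) : tw σ (rho7 s hs x) = mus R (rho7 s hs x, ch0 x) := by
  have h1 : (Multiplicative.ofAdd 1 : Multiplicative (ZMod 2)) ≠ 1 := by decide
  have e : (tw σ).comp (rho7 s hs) = (mus R).comp ((rho7 s hs).prod ch0) := by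
    apply homA_ext'
    · show tw σ (rho7 _ _ (iA al7 ga)) = mus R (rho7 _ _ (iA al7 ga), ch0 (iA al7 ga))
      rw [ch0_ga, mus_ne _ h1, rho7_iA, rF7_ga]
      unfold mu7
      rw [tw_mx, mx_neg]
      apply mx_congr
      · rw [map_zero, neg_zero]
      · rw [map_neg, map_one]
      · rw [map_one]
      · rw [map_neg, map_pow, hσ]; ring
    · show tw σ (rho7 _ _ (iA al7 gb)) = mus R (rho7 _ _ (iA al7 gb), ch0 (iA al7 gb))
      rw [ch0_gb, mus_ne _ h1, rho7_iA, rF7_gb]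
      unfold mv7
      rw [tw_mx, mx_neg]
      apply mx_congr
      · rw [map_neg, hσ]
      · rw [map_sub, map_mul, map_neg, map_pow, map_ofNat, map_ofNat, hσ]; ring
      · rw [map_one]
      · rw [map_sub, map_pow, hσ]; ring
    · show tw σ (rho7 _ _ (tA al7)) = mus R (rho7 _ _ (tA al7), ch0 (tA al7))
      rw [ch0_t, mus_one, rho7_tA]
      unfold mt7
      rw [tw_mx]
      apply mx_congr
      · rw [map_one]
      · rw [hσ, neg_neg]
      · rw [map_zero, neg_zero]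
      · rw [map_one]
  exact DFunLike.congr_fun e x

theorem tw_r7 (n : ℕ) (g : GA (al7 ^ n)) :
    tw (sg ℤ) (r7 n g) = mus Z7 (r7 n g, ch7 n g) := by
  rw [ch7_eq]
  exact tw_rho7 (sg ℤ) (ss ℤ) (ss_eq ℤ) (sg_ss ℤ) (toA al7 n g)

/-! ### Transfer of the type -/

theorem tr_neg' {R : Type} [CommRing R] (g : SL2 R) : tr (-g) = -tr g := by
  rw [tr_eq, tr_eq, G.SL_neg, G.SL_neg]; ring

theorem sign_gen {A : Type} [CommRing A] (σ : A →+* A) {H Λ : Type} [Group H] [Group Λ]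
    (Φ : NatBij H Λ) (ρ₀ : H →* SL2 A) (ch : H →* Multiplicative (ZMod 2))
    (htw : ∀ g, tw σ (ρ₀ g) = mus A (ρ₀ g, ch g)) (T : Λ → A)
    (red : ∀ (S : Type) [CommRing S] [Finite S] (h : A →+* S) (l : Λ),
      h (T l) = tr (Φ.toFun _ ((SLm h).comp ρ₀) l))
    (S : Type) [CommRing S] [Finite S] (h : A →+* S) (l : Λ) :
    h (σ (T l)) = tr (mus S (Φ.toFun _ ((SLm h).comp ρ₀) l, Φ.toFun _ ch l)) := by
  have e1 : (SLm (h.comp σ)).comp ρ₀ =
      ((tw (RingHom.id S)).comp (mus S)).comp (((SLm h).comp ρ₀).prod ch) := by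
    ext1 g
    show SLm (h.comp σ) (ρ₀ g) = tw (RingHom.id S) (mus S (SLm h (ρ₀ g), ch g))
    have e2 : SLm (h.comp σ) (ρ₀ g) = SLm h (SLm σ (ρ₀ g)) := rfl
    rw [e2, tw_id_map, tw_id_SLm, htw, mus_map]
  have e3 : (h.comp σ) (T l) = tr (Φ.toFun _ ((SLm (h.comp σ)).comp ρ₀) l) :=
    red S (h.comp σ) l
  rw [e1, Φ.nat, pair_prod] at e3
  rw [← RingHom.comp_apply, e3]
  exact tr_tw (RingHom.id S) _

theorem sign_one {A : Type} [CommRing A] (σ : A →+* A) {H Λ : Type} [Group H] [Group Λ]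
    (Φ : NatBij H Λ) (ρ₀ : H →* SL2 A) (ch : H →* Multiplicative (ZMod 2))
    (htw : ∀ g, tw σ (ρ₀ g) = mus A (ρ₀ g, ch g)) (T : Λ → A)
    (red : ∀ (S : Type) [CommRing S] [Finite S] (h : A →+* S) (l : Λ),
      h (T l) = tr (Φ.toFun _ ((SLm h).comp ρ₀) l))
    (hA : ∀ z : A, (∀ (S : Type) [CommRing S] [Finite S] (h : A →+* S), h z = 0) → z = 0)
    (l : Λ) (hl : Φ.toFun _ ch l = 1) : σ (T l) = T l := by
  apply sub_eq_zero.1
  apply hA
  intro S _ _ h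
  rw [map_sub, sign_gen σ Φ ρ₀ ch htw T red S h l, hl, mus_one, red S h l, sub_self]

theorem sign_ne {A : Type} [CommRing A] (σ : A →+* A) {H Λ : Type} [Group H] [Group Λ]
    (Φ : NatBij H Λ) (ρ₀ : H →* SL2 A) (ch : H →* Multiplicative (ZMod 2))
    (htw : ∀ g, tw σ (ρ₀ g) = mus A (ρ₀ g, ch g)) (T : Λ → A)
    (red : ∀ (S : Type) [CommRing S] [Finite S] (h : A →+* S) (l : Λ),
      h (T l) = tr (Φ.toFun _ ((SLm h).comp ρ₀) l))
    (hA : ∀ z : A, (∀ (S : Type) [CommRing S] [Finite S] (h : A →+* S), h z = 0) → z = 0)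
    (l : Λ) (hl : Φ.toFun _ ch l ≠ 1) : σ (T l) = -T l := by
  apply eq_neg_of_add_eq_zero_left
  apply hA
  intro S _ _ h
  rw [map_add, sign_gen σ Φ ρ₀ ch htw T red S h l, mus_ne _ hl, tr_neg', red S h l,
    neg_add_cancel]

/-! ### The ring `Z7` is residually finite -/

theorem S7m_apply {R S : Type} [CommRing R] [CommRing S] (f : R →+* S) (z : S7 R) :
    S7m f z = ⟨⟨f z.re.re, f z.re.im⟩, ⟨f z.im.re, f z.im.im⟩⟩ := by
  unfold S7m
  rw [evs_apply, ev7_apply, ev7_apply]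
  simp only [ss_sq, RingHom.comp_apply]
  apply QuadraticAlgebra.ext
  · apply QuadraticAlgebra.ext
    · simp [dl, ss]
    · simp [dl, ss]
  · apply QuadraticAlgebra.ext
    · simp [dl, ss]
    · simp [dl, ss]

theorem int_zero (a : ℤ) (h : ∀ m : ℕ, 0 < m → (a : ZMod m) = 0) : a = 0 := by
  have h1 := h (a.natAbs + 1) (by omega)
  rw [ZMod.intCast_zmod_eq_zero_iff_dvd] at h1
  by_contra h2
  have := Int.le_of_dvd (by positivity : (0 : ℤ) < |a|) ((dvd_abs _ _).2 h1)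
  push_cast at this
  omega

theorem Z7_rf (z : Z7) (h : ∀ (S : Type) [CommRing S] [Finite S] (h : Z7 →+* S), h z = 0) :
    z = 0 := by
  have h1 : ∀ m : ℕ, 0 < m → (z.re.re : ZMod m) = 0 ∧ (z.re.im : ZMod m) = 0 ∧
      (z.im.re : ZMod m) = 0 ∧ (z.im.im : ZMod m) = 0 := by
    intro m hm
    have : NeZero m := ⟨hm.ne'⟩
    have h2 := h (S7 (ZMod m)) (S7m (Int.castRingHom (ZMod m)))
    rw [S7m_apply] at h2
    exact ⟨congrArg (fun x => x.re.re) h2, congrArg (fun x => x.re.im) h2,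
      congrArg (fun x => x.im.re) h2, congrArg (fun x => x.im.im) h2⟩
  apply QuadraticAlgebra.ext
  · apply QuadraticAlgebra.ext
    · exact int_zero _ fun m hm => (h1 m hm).1
    · exact int_zero _ fun m hm => (h1 m hm).2.1
  · apply QuadraticAlgebra.ext
    · exact int_zero _ fun m hm => (h1 m hm).2.2.1
    · exact int_zero _ fun m hm => (h1 m hm).2.2.2

/-! ### Irreducibility -/

theorem evs_ss' {S : Type} [CommRing S] (f : ℤ →+* S) (s : S) (hs : s ^ 4 + s ^ 2 + 2 = 0) :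
    evs f s hs (ss ℤ) = s := by
  rw [evs_apply, ev7_apply, ev7_apply]
  simp [ss]

theorem comp_r7' {S : Type} [CommRing S] (f : ℤ →+* S) (s : S) (hs : s ^ 4 + s ^ 2 + 2 = 0)
    (n : ℕ) (w : F) : ((SLm (evs f s hs)).comp (r7 n)) (iA (al7 ^ n) w) = rF7 s hs w := by
  have h1 := map_rho7 (evs f s hs) (ss ℤ) (ss_eq ℤ)
  have h2 : SLm (evs f s hs) (rho7 (ss ℤ) (ss_eq ℤ) (iA al7 w)) =
      rho7 (evs f s hs (ss ℤ)) (map_s7 (evs f s hs) (ss_eq ℤ)) (iA al7 w) :=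
    DFunLike.congr_fun h1 (iA al7 w)
  show SLm (evs f s hs) (rho7 _ _ (toA al7 n (iA (al7 ^ n) w))) = _
  rw [toA_iA, h2, rho7_iA]
  congr 1
  simp only [evs_ss']

/-- `s ↦ 2` -/
def h11' : Z7 →+* ZMod 11 := evs (Int.castRingHom (ZMod 11)) 2 (by decide)

theorem ch7_iA (n : ℕ) (w : F) : ch7 n (iA (al7 ^ n) w) = ch0 (iA al7 w) := by
  rw [ch7_eq, toA_iA]

theorem irr_link (n : ℕ) (Λ : Type) [Group Λ] (Φ : NatBij (GA (al7 ^ n)) Λ) (T : Λ → Z7)
    (s : Λ →* SL2 (AlgebraicClosure ℚ)) (j : Z7 →+* AlgebraicClosure ℚ)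
    (hinj : Function.Injective j) (hchar : ∀ g, tr (s g) = j (T g))
    (hred : ∀ l : Λ, h11' (T l) = tr (Φ.toFun _ ((SLm h11').comp (r7 n)) l)) :
    Irr (s.comp (Φ.toFun _ (ch7 n)).ker.subtype) := by
  -- two elements of `F` of type `0`
  have hg : ∀ w : F, ch0 (iA al7 w) = 1 → ∃ l : Λ, Φ.toFun _ (ch7 n) l = 1 ∧
      Φ.toFun _ ((SLm h11').comp (r7 n)) l = rF7 (2 : ZMod 11) (by decide) w := by
    intro w hw
    have h1 : (Φ.toFun _ (((SLm h11').comp (r7 n)).prod (ch7 n))).range =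
        (((SLm h11').comp (r7 n)).prod (ch7 n)).range := Φ.range_eq _
    have h2 : (((SLm h11').comp (r7 n)).prod (ch7 n)) (iA (al7 ^ n) w) ∈
        (Φ.toFun _ (((SLm h11').comp (r7 n)).prod (ch7 n))).range := by
      rw [h1]; exact ⟨_, rfl⟩
    obtain ⟨l, hl⟩ := h2
    rw [pair_prod] at hl
    refine ⟨l, ?_, ?_⟩
    · have := congrArg Prod.snd hl
      rw [← hw, ← ch7_iA n]
      exact this
    · have := congrArg Prod.fst hl
      rw [← comp_r7' (Int.castRingHom (ZMod 11)) 2 (by decide) n w]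
      exact this
  obtain ⟨l₁, hc1, hl1⟩ := hg (ga * gb⁻¹) (by
    rw [map_mul, map_mul, map_inv, map_inv, ch0_ga, ch0_gb]; decide)
  obtain ⟨l₂, hc2, hl2⟩ := hg (ga * ga) (by
    rw [map_mul, map_mul, ch0_ga]; decide)
  refine ⟨⟨l₁, hc1⟩, ⟨l₂, hc2⟩, ?_⟩
  show tr (s (l₁ * l₂ * l₁⁻¹ * l₂⁻¹)) ≠ 2
  rw [hchar]
  intro h
  have h3 : T (l₁ * l₂ * l₁⁻¹ * l₂⁻¹) = 2 := by
    apply hinj
    rw [h, map_ofNat]
  have h4 := hred (l₁ * l₂ * l₁⁻¹ * l₂⁻¹)
  rw [h3, map_mul, map_mul, map_mul, map_inv, map_inv, hl1, hl2, map_mul, map_mul, map_inv,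
    rF7_ga, rF7_gb, mu_mvi] at h4
  unfold mu7 at h4
  simp only [mx_mul, mx_inv, mx_tr, map_ofNat] at h4
  exact absurd h4 (by decide)

/-! ### The detwisted representation -/

theorem sg_fix {R : Type} [CommRing R] {z : S7 R} (h : sg R z = z) (h2 : ∀ x : R, -x = x → x = 0) :
    z.im = 0 := by
  have h1 : -z.im = z.im := congrArg QuadraticAlgebra.im h
  apply QuadraticAlgebra.ext
  · exact h2 _ (congrArg QuadraticAlgebra.re h1)
  · exact h2 _ (congrArg QuadraticAlgebra.im h1)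

theorem sg_neg_fix {R : Type} [CommRing R] {z : S7 R} (h : -sg R z = z)
    (h2 : ∀ x : R, -x = x → x = 0) : z.re = 0 := by
  have h1 : -z.re = z.re := congrArg QuadraticAlgebra.re h
  apply QuadraticAlgebra.ext
  · exact h2 _ (congrArg QuadraticAlgebra.re h1)
  · exact h2 _ (congrArg QuadraticAlgebra.im h1)

theorem int_neg {x : ℤ} (h : -x = x) : x = 0 := by omega

section dt

variable {g : SL2 Z7} (h : tw (sg ℤ) g = g)
include h

theorem dt_a : (g.val 0 0).im = 0 := by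
  have h1 : sg ℤ (g.val 0 0) = g.val 0 0 := congrArg (fun x : SL2 Z7 => x.val 0 0) h
  exact sg_fix h1 fun x hx => int_neg hx

theorem dt_b : (g.val 0 1).re = 0 := by
  have h1 : -sg ℤ (g.val 0 1) = g.val 0 1 := congrArg (fun x : SL2 Z7 => x.val 0 1) h
  exact sg_neg_fix h1 fun x hx => int_neg hx

theorem dt_c : (g.val 1 0).re = 0 := by
  have h1 : -sg ℤ (g.val 1 0) = g.val 1 0 := congrArg (fun x : SL2 Z7 => x.val 1 0) h
  exact sg_neg_fix h1 fun x hx => int_neg hx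

theorem dt_d : (g.val 1 1).im = 0 := by
  have h1 : sg ℤ (g.val 1 1) = g.val 1 1 := congrArg (fun x : SL2 Z7 => x.val 1 1) h
  exact sg_fix h1 fun x hx => int_neg hx

theorem dt_det : (g.val 0 0).re * (g.val 1 1).re - (g.val 0 1).im * (dl ℤ * (g.val 1 0).im) = 1 := by
  have h1 := congrArg QuadraticAlgebra.re (G.SL_det g)
  rw [QuadraticAlgebra.re_sub, QuadraticAlgebra.re_mul, QuadraticAlgebra.re_mul, dt_a h, dt_b h,
    QuadraticAlgebra.re_one] at h1
  linear_combination h1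

end dt

/-- `[[a, s b], [s c, d]] ↦ [[a, b], [δ c, d]]` -/
def dt (g : SL2 Z7) (h : tw (sg ℤ) g = g) : SL2 O7 :=
  mx (g.val 0 0).re (g.val 0 1).im (dl ℤ * (g.val 1 0).im) (g.val 1 1).re (dt_det h)

theorem dt_mul (g g' : SL2 Z7) (h : tw (sg ℤ) g = g) (h' : tw (sg ℤ) g' = g')
    (h2 : tw (sg ℤ) (g * g') = g * g') : dt (g * g') h2 = dt g h * dt g' h' := by
  unfold dt
  rw [mx_mul]
  apply mx_congr
  · rw [G.SL_mul, QuadraticAlgebra.re_add, QuadraticAlgebra.re_mul, QuadraticAlgebra.re_mul,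
      dt_a h, dt_b h]
    ring
  · rw [G.SL_mul, QuadraticAlgebra.im_add, QuadraticAlgebra.im_mul, QuadraticAlgebra.im_mul,
      dt_a h, dt_b h]
    ring
  · rw [G.SL_mul, QuadraticAlgebra.im_add, QuadraticAlgebra.im_mul, QuadraticAlgebra.im_mul,
      dt_c h, dt_d h]
    ring
  · rw [G.SL_mul, QuadraticAlgebra.re_add, QuadraticAlgebra.re_mul, QuadraticAlgebra.re_mul,
      dt_c h, dt_d h]
    ring

theorem dt_tr (g : SL2 Z7) (h : tw (sg ℤ) g = g) : c7 (tr (dt g h)) = tr g := by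
  unfold dt
  rw [mx_tr, tr_eq, map_add]
  congr 1
  · apply QuadraticAlgebra.ext
    · rfl
    · exact (dt_a h).symm
  · apply QuadraticAlgebra.ext
    · rfl
    · exact (dt_d h).symm

theorem ker_tw (n : ℕ) (g : (ch7 n).ker) : tw (sg ℤ) (r7 n g) = r7 n g := by
  have h1 : ch7 n g = 1 := g.2
  rw [tw_r7, h1, mus_one]

/-- the detwisted representation -/
def r70 (n : ℕ) : (ch7 n).ker →* SL2 O7 where
  toFun g := dt (r7 n g) (ker_tw n g)
  map_one' := by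
    unfold dt
    rw [mx_one]
    apply mx_congr <;> simp
  map_mul' g g' := by
    rw [← dt_mul _ _ (ker_tw n g) (ker_tw n g') (by
      have := ker_tw n (g * g')
      rw [Subgroup.coe_mul, map_mul] at this
      exact this)]
    congr 1
    exact map_mul (r7 n) _ _

theorem r70_tr (n : ℕ) (g : (ch7 n).ker) : c7 (tr (r70 n g)) = tr (r7 n g) := dt_tr _ (ker_tw n g)

/-- `c7` and the reductions -/
theorem S7m_c7 {S : Type} [CommRing S] (f : ℤ →+* S) (t : O7) :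
    S7m f (c7 t) = algebraMap (E7 S) (S7 S) (E7m f t) := by
  rw [S7m_apply]
  apply QuadraticAlgebra.ext
  · rfl
  · apply QuadraticAlgebra.ext
    · show f 0 = 0
      exact map_zero f
    · show f 0 = 0
      exact map_zero f

theorem fix_c7 {z : Z7} (h : sg ℤ z = z) : z = c7 z.re := by
  apply QuadraticAlgebra.ext
  · rfl
  · exact sg_fix h fun x hx => int_neg hx

theorem loc_link (n : ℕ) (Λ : Type) [Group Λ] (Φ : NatBij (GA (al7 ^ n)) Λ) (T : Λ → Z7)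
    (hfix : ∀ l, Φ.toFun _ (ch7 n) l = 1 → sg ℤ (T l) = T l)
    (hred : ∀ (S : Type) [CommRing S] [Finite S] (h : Z7 →+* S) (l : Λ),
      h (T l) = tr (Φ.toFun _ ((SLm h).comp (r7 n)) l)) (m : ℕ) (hm : 0 < m) :
    ∃ r : (Φ.toFun _ (ch7 n)).ker →* SL2 (E7 (ZMod m)), ∀ l : (Φ.toFun _ (ch7 n)).ker,
      ∃ t : O7, T l = c7 t ∧ tr (r l) = E7m (Int.castRingHom (ZMod m)) t := by
  have : NeZero m := ⟨hm.ne'⟩
  obtain ⟨Ψ, hΨ⟩ := natBij_ker Φ (rfl : Φ.toFun _ (ch7 n) = Φ.toFun _ (ch7 n))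
  let θ₁ : (ch7 n).ker →* SL2 (E7 (ZMod m)) :=
    (SLm (E7m (Int.castRingHom (ZMod m)))).comp (r70 n)
  let θ₂ : (ch7 n).ker →* SL2 (S7 (ZMod m)) :=
    ((SLm (S7m (Int.castRingHom (ZMod m)))).comp (r7 n)).comp (ch7 n).ker.subtype
  refine ⟨Ψ.toFun _ θ₁, fun l => ⟨(T l).re, fix_c7 (hfix l l.2), ?_⟩⟩
  obtain ⟨g, hg1, hg2⟩ := pair_val Ψ θ₁ θ₂ l
  rw [← hg1]
  have h1 : tr (θ₂ g) = S7m (Int.castRingHom (ZMod m)) (T l) := by
    rw [hg2, hred, hΨ]
    rfl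
  have h2 : tr (θ₂ g) = algebraMap (E7 (ZMod m)) (S7 (ZMod m)) (tr (θ₁ g)) := by
    show tr (SLm _ (r7 n g)) = algebraMap _ _ (tr (SLm _ (r70 n g)))
    rw [tr_map, tr_map, ← r70_tr, S7m_c7]
  rw [h2, fix_c7 (hfix l l.2), S7m_c7] at h1
  exact congrArg QuadraticAlgebra.re h1

/-- BLOCK lk7 -/
theorem p_lk7 : S_lk7 := by
  intro n Λ _ Φ nL hsur hcm T s j hout
  have hfix : ∀ l, Φ.toFun _ (ch7 n) l = 1 → sg ℤ (T l) = T l :=
    sign_one (sg ℤ) Φ (r7 n) (ch7 n) (tw_r7 n) T hout.red Z7_rf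
  refine ⟨Φ.toFun _ (ch7 n), hfix,
    sign_ne (sg ℤ) Φ (r7 n) (ch7 n) (tw_r7 n) T hout.red Z7_rf, ?_,
    irr_link n Λ Φ T s j hout.inj hout.char (hout.red (ZMod 11) h11'),
    loc_link n Λ Φ T hfix hout.red⟩
  have h1 : Multiplicative.ofAdd (1 : ZMod 2) ∈ (Φ.toFun _ (ch7 n)).range := by
    rw [Φ.range_eq]
    exact ⟨iA (al7 ^ n) ga, by rw [ch7_iA, ch0_ga]⟩
  obtain ⟨l, hl⟩ := h1
  exact ⟨l, by rw [hl]; decide⟩

end Pool.Agent.F8.D7
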