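import Pool.Agent.Lib.MP_305fdd_al.F8.AB.DefsN2

/-!
# MP_305fdd_al, once-punctured torus bundles with monodromy `(L² R)ⁿ` (invariant trace field `ℚ(√-7)`)

`E7 R = R[δ]`, `δ² = -δ - 2`; `O7 = E7 ℤ` is the ring of integers of `ℚ(√-7)`, `δ` a prime of norm two;
`S7 R = E7 R [s]`, `s² = δ` (so `s⁴ + s² + 2 = 0`), `Z7 = S7 ℤ`.

`al7` is the automorphism `u ↦ u v⁻¹ u³`, `v ↦ u` of `F` (`u = ga`, `v = gb`; in the basis `x = v⁻¹ u`, `u`:
`x ↦ x u u`, `u ↦ u x u u`), `G7 = F ⋊ ℤ`. For a root `s` of `s⁴ + s² + 2` in a ring `R` there is the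
representation `rho7 s : G7 → SL₂(R)`, and the involution `k` acts by `mk7 s`.

`NN7` is the group of the matrices `[[a, s b], [s c, d]]` and `[[s a, b], [c, s d]]`, `a, b, c, d ∈ O7`, of determinant
one. Block G: `NN7 / ±1` is isomorphic to `N2A kp7 = G7 ⋊ C₂`.
-/

set_option autoImplicit false

namespace Pool.Agent.F8.D7

open Pool.Agent.MP_305fdd_al Pool.Agent.Lib.MP_305fdd_al Pool.Agent.F2X Pool.Agent.F8
  Pool.Agent.F8.HN Pool.Agent.F8.AB
open scoped QuadraticAlgebra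

/-! ### The rings -/

/-- `R[δ]`, `δ² = -δ - 2` (elements `⟨x, y⟩ = x + y δ`) -/
abbrev E7 (R : Type) [CommRing R] : Type := QuadraticAlgebra R (-2) (-1)

/-- `δ` -/
def dl (R : Type) [CommRing R] : E7 R := ⟨0, 1⟩

/-- `R[s]`, `s² = δ` (elements `⟨x, y⟩ = x + y s`, `x, y ∈ R[δ]`) -/
abbrev S7 (R : Type) [CommRing R] : Type := QuadraticAlgebra (E7 R) (dl R) 0

/-- `s` -/
def ss (R : Type) [CommRing R] : S7 R := ⟨0, 1⟩

/-- the ring of integers of `ℚ(√-7)` -/
abbrev O7 : Type := E7 ℤ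

/-- `O7[s]` -/
abbrev Z7 : Type := S7 ℤ

theorem dl_eq (R : Type) [CommRing R] : dl R * dl R + dl R + 2 = 0 := by
  ext <;> simp [dl]

theorem ss_sq (R : Type) [CommRing R] : ss R ^ 2 = algebraMap (E7 R) (S7 R) (dl R) := by
  rw [pow_two]
  apply QuadraticAlgebra.ext
  · simp [ss]
  · simp [ss]

theorem ss_eq (R : Type) [CommRing R] : ss R ^ 4 + ss R ^ 2 + 2 = 0 := by
  have h : ss R ^ 4 + ss R ^ 2 + 2 = ss R ^ 2 * ss R ^ 2 + ss R ^ 2 + 2 := by ring
  rw [h, ss_sq, ← map_mul, ← map_add, ← map_ofNat (algebraMap (E7 R) (S7 R)) 2, ← map_add, dl_eq,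
    map_zero]

/-- base change -/
def E7m {R S : Type} [CommRing R] [CommRing S] (f : R →+* S) : E7 R →+* E7 S where
  toFun z := ⟨f z.re, f z.im⟩
  map_one' := by ext <;> simp
  map_zero' := by ext <;> simp
  map_add' x y := by ext <;> simp
  map_mul' x y := by
    apply QuadraticAlgebra.ext
    · simp only [QuadraticAlgebra.re_mul, map_add, map_mul, map_neg, map_ofNat]
    · simp only [QuadraticAlgebra.im_mul, map_add, map_mul, map_neg, map_one]

theorem E7m_apply {R S : Type} [CommRing R] [CommRing S] (f : R →+* S) (z : E7 R) :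
    E7m f z = ⟨f z.re, f z.im⟩ := rfl

/-- evaluation of `E7 R` at a root -/
def ev7 {R S : Type} [CommRing R] [CommRing S] (f : R →+* S) (d : S) (hd : d * d + d + 2 = 0) :
    E7 R →+* S where
  toFun z := f z.re + f z.im * d
  map_one' := by simp
  map_zero' := by simp
  map_add' x y := by simp; ring
  map_mul' x y := by
    simp only [QuadraticAlgebra.re_mul, QuadraticAlgebra.im_mul, map_add, map_mul, map_neg,
      map_one, map_ofNat]
    linear_combination (-f x.im * f y.im) * hd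

theorem ev7_apply {R S : Type} [CommRing R] [CommRing S] (f : R →+* S) (d : S)
    (hd : d * d + d + 2 = 0) (z : E7 R) : ev7 f d hd z = f z.re + f z.im * d := rfl

/-- evaluation of `S7 R` at a root of `s⁴ + s² + 2` -/
def evs {R S : Type} [CommRing R] [CommRing S] (f : R →+* S) (s : S) (hs : s ^ 4 + s ^ 2 + 2 = 0) :
    S7 R →+* S where
  toFun z := ev7 f (s ^ 2) (by linear_combination hs) z.re +
    ev7 f (s ^ 2) (by linear_combination hs) z.im * s
  map_one' := by simp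
  map_zero' := by simp
  map_add' x y := by simp; ring
  map_mul' x y := by
    have h : ev7 f (s ^ 2) (by linear_combination hs) (dl R) = s ^ 2 := by
      rw [ev7_apply]; simp [dl]
    simp only [QuadraticAlgebra.re_mul, QuadraticAlgebra.im_mul, map_add, map_mul, h, map_zero]
    ring

theorem evs_apply {R S : Type} [CommRing R] [CommRing S] (f : R →+* S) (s : S)
    (hs : s ^ 4 + s ^ 2 + 2 = 0) (z : S7 R) : evs f s hs z =
      ev7 f (s ^ 2) (by linear_combination hs) z.re +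
      ev7 f (s ^ 2) (by linear_combination hs) z.im * s := rfl

/-- the embedding `O7 → Z7` -/
abbrev c7 : O7 →+* Z7 := algebraMap O7 Z7

/-! ### The group `G7` -/

/-- the monodromy: `u ↦ u v⁻¹ u³`, `v ↦ u` -/
def al7 : MulAut F := mkA (ga * gb⁻¹ * ga * ga * ga) ga gb (gb * gb * gb * ga⁻¹ * gb)
  (by simp) (by simp [mul_assoc]) (by simp [mul_assoc]) (by simp)

theorem al7_ga : al7 ga = ga * gb⁻¹ * ga * ga * ga := by
  unfold al7; rw [mkA_apply, lf_ga]
theorem al7_gb : al7 gb = ga := by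
  unfold al7; rw [mkA_apply, lf_gb]

/-- in the basis `x = v⁻¹ u`, `u`: `x ↦ x u u` -/
theorem al7_x : al7 x0 = x0 * ga * ga := by
  unfold x0; rw [map_mul, map_inv, al7_ga, al7_gb]; group

/-- in the basis `x = v⁻¹ u`, `u`: `u ↦ u x u u` -/
theorem al7_u : al7 ga = ga * x0 * ga * ga := by
  unfold x0; rw [al7_ga]; group

/-- `F ⋊ ℤ` -/
abbrev G7 : Type := GA al7

/-- the condition for the involution: `iot ∘ al7 ∘ iot = conj (u²) ∘ al7` -/
theorem kp7 : Kp al7 (ga * ga) where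
  a := by
    rw [map_inv, al7_ga]
    simp only [map_mul, map_inv, iot_ga, iot_gb]
    simp [mul_assoc]
  b := by
    rw [map_inv, al7_gb]
    simp only [map_inv, iot_ga]
    group
  c := by
    simp only [map_mul, iot_ga]
    group

/-! ### The representation -/

section rep

variable {R S : Type} [CommRing R] [CommRing S]

/-- `t = [[1, s], [0, 1]]` -/
def mt7 (s : R) : SL2 R := mx 1 s 0 1 (by ring)

/-- `u = [[0, -1], [1, -s³]]` -/
def mu7 (s : R) : SL2 R := mx 0 (-1) 1 (-s ^ 3) (by ring)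

/-- `v = [[-s, -3 - 2 s²], [1, s - s³]]` -/
def mv7 (s : R) (hs : s ^ 4 + s ^ 2 + 2 = 0) : SL2 R :=
  mx (-s) (-3 - 2 * s ^ 2) 1 (s - s ^ 3) (by linear_combination hs)

/-- `k = [[1 + s², s], [-s, -1 - s²]]`, `k² = -1` -/
def mk7 (s : R) (hs : s ^ 4 + s ^ 2 + 2 = 0) : SL2 R :=
  mx (1 + s ^ 2) s (-s) (-1 - s ^ 2) (by linear_combination (-1 : R) * hs)

/-- `t v = u t` -/
theorem mt_mv (s : R) (hs : s ^ 4 + s ^ 2 + 2 = 0) : mt7 s * mv7 s hs = mu7 s * mt7 s := by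
  unfold mt7 mv7 mu7
  rw [mx_mul, mx_mul]
  apply mx_congr
  · ring
  · linear_combination (-1 : R) * hs
  · ring
  · ring

/-- `u v⁻¹ = [[1, s], [s, 1 + s²]]` -/
theorem mu_mvi (s : R) (hs : s ^ 4 + s ^ 2 + 2 = 0) : mu7 s * (mv7 s hs)⁻¹ =
    mx 1 s s (1 + s ^ 2) (by ring) := by
  unfold mv7 mu7
  rw [mx_inv, mx_mul]
  apply mx_congr
  · ring
  · ring
  · ring
  · linear_combination hs

/-- `u v⁻¹ u³ = [[s, 1], [1, -s - s³]]` -/
theorem mu_mvi_mu (s : R) (hs : s ^ 4 + s ^ 2 + 2 = 0) :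
    mu7 s * (mv7 s hs)⁻¹ * mu7 s * mu7 s * mu7 s =
      mx s 1 1 (-s - s ^ 3) (by linear_combination (-1 : R) * hs) := by
  have h1 : mx 1 s s (1 + s ^ 2) (by ring) * mu7 s =
      mx s (1 + s ^ 2) (1 + s ^ 2) s (by linear_combination (-1 : R) * hs) := by
    unfold mu7
    rw [mx_mul]
    apply mx_congr
    · ring
    · linear_combination (-1 : R) * hs
    · ring
    · linear_combination (-s) * hs
  have h2 : mx s (1 + s ^ 2) (1 + s ^ 2) s (by linear_combination (-1 : R) * hs) * mu7 s =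
      mx (1 + s ^ 2) s s 1 (by ring) := by
    unfold mu7
    rw [mx_mul]
    apply mx_congr
    · ring
    · linear_combination (-s) * hs
    · ring
    · linear_combination (-1 : R) * hs
  rw [mu_mvi, h1, h2]
  unfold mu7
  rw [mx_mul]
  apply mx_congr
  · ring
  · linear_combination (-1 : R) * hs
  · ring
  · ring

/-- `t u = u v⁻¹ u³ t` -/
theorem mt_mu (s : R) (hs : s ^ 4 + s ^ 2 + 2 = 0) : mt7 s * mu7 s =
    mu7 s * (mv7 s hs)⁻¹ * mu7 s * mu7 s * mu7 s * mt7 s := by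
  rw [mu_mvi_mu]
  unfold mt7 mu7
  rw [mx_mul, mx_mul]
  apply mx_congr
  · ring
  · linear_combination (-1 : R) * hs
  · ring
  · ring

/-- the representation of `F` -/
def rF7 (s : R) (hs : s ^ 4 + s ^ 2 + 2 = 0) : F →* SL2 R := liF (mu7 s) (mv7 s hs)

theorem rF7_ga (s : R) (hs : s ^ 4 + s ^ 2 + 2 = 0) : rF7 s hs ga = mu7 s := liF_ga _ _
theorem rF7_gb (s : R) (hs : s ^ 4 + s ^ 2 + 2 = 0) : rF7 s hs gb = mv7 s hs := liF_gb _ _

theorem rF7_al (s : R) (hs : s ^ 4 + s ^ 2 + 2 = 0) (w : F) :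
    rF7 s hs (al7 w) = mt7 s * rF7 s hs w * (mt7 s)⁻¹ := by
  apply compat
  · rw [al7_ga]
    simp only [map_mul, map_inv, rF7_ga, rF7_gb]
    rw [mt_mu s hs, mul_inv_cancel_right]
  · rw [al7_gb, rF7_ga, rF7_gb, mt_mv, mul_inv_cancel_right]

/-- the representation of `G7` given by a root `s` of `s⁴ + s² + 2` -/
def rho7 (s : R) (hs : s ^ 4 + s ^ 2 + 2 = 0) : G7 →* SL2 R :=
  liftA (rF7 s hs) (mt7 s) (rF7_al s hs)

theorem rho7_iA (s : R) (hs : s ^ 4 + s ^ 2 + 2 = 0) (w : F) :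
    rho7 s hs (iA al7 w) = rF7 s hs w := liftA_iA _ _ _ _
theorem rho7_tA (s : R) (hs : s ^ 4 + s ^ 2 + 2 = 0) : rho7 s hs (tA al7) = mt7 s :=
  liftA_tA _ _ _

/-- `k² = -1` -/
theorem mk_sq (s : R) (hs : s ^ 4 + s ^ 2 + 2 = 0) : mk7 s hs * mk7 s hs = -1 := by
  unfold mk7
  rw [mx_mul, mx_one, mx_neg]
  apply mx_congr
  · linear_combination hs
  · ring
  · ring
  · linear_combination hs

/-- `k u = u⁻¹ k` -/
theorem mk_mu (s : R) (hs : s ^ 4 + s ^ 2 + 2 = 0) : mk7 s hs * mu7 s = (mu7 s)⁻¹ * mk7 s hs := by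
  unfold mk7 mu7
  rw [mx_inv, mx_mul, mx_mul]
  apply mx_congr
  · linear_combination s * hs
  · ring
  · ring
  · linear_combination s * hs

/-- `k v = v⁻¹ k` -/
theorem mk_mv (s : R) (hs : s ^ 4 + s ^ 2 + 2 = 0) :
    mk7 s hs * mv7 s hs = (mv7 s hs)⁻¹ * mk7 s hs := by
  unfold mk7 mv7
  rw [mx_inv, mx_mul, mx_mul]
  apply mx_congr
  · linear_combination s * hs
  · ring
  · ring
  · linear_combination s * hs

/-- `k t = u² t k` -/
theorem mk_mt (s : R) (hs : s ^ 4 + s ^ 2 + 2 = 0) :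
    mk7 s hs * mt7 s = mu7 s * mu7 s * mt7 s * mk7 s hs := by
  unfold mk7 mu7 mt7
  rw [mx_mul, mx_mul, mx_mul, mx_mul]
  apply mx_congr
  · linear_combination hs
  · linear_combination s * hs
  · linear_combination (s ^ 3 - s) * hs
  · linear_combination (s ^ 4 - s ^ 2 - 1) * hs

theorem map_s7 (f : R →+* S) {s : R} (hs : s ^ 4 + s ^ 2 + 2 = 0) :
    f s ^ 4 + f s ^ 2 + 2 = 0 := by
  have h := congrArg f hs
  rw [map_add, map_add, map_pow, map_pow, map_ofNat, map_zero] at h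
  exact h

theorem map_rho7 (f : R →+* S) (s : R) (hs : s ^ 4 + s ^ 2 + 2 = 0) :
    (SLm f).comp (rho7 s hs) = rho7 (f s) (map_s7 f hs) := by
  apply homA_ext'
  · show SLm f (rho7 s hs (iA al7 ga)) = _
    rw [rho7_iA, rho7_iA, rF7_ga, rF7_ga]
    unfold mu7
    rw [mx_map]
    apply mx_congr <;> simp only [map_zero, map_one, map_neg, map_pow]
  · show SLm f (rho7 s hs (iA al7 gb)) = _
    rw [rho7_iA, rho7_iA, rF7_gb, rF7_gb]
    unfold mv7
    rw [mx_map]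
    apply mx_congr <;> simp only [map_one, map_neg, map_pow, map_sub, map_mul, map_ofNat]
  · show SLm f (rho7 s hs (tA al7)) = _
    rw [rho7_tA, rho7_tA]
    unfold mt7
    rw [mx_map]
    apply mx_congr <;> simp only [map_zero, map_one]

end rep

/-- the representation of `GA (al7 ^ n)` over `Z7` -/
def r7 (n : ℕ) : GA (al7 ^ n) →* SL2 Z7 := (rho7 (ss ℤ) (ss_eq ℤ)).comp (toA al7 n)

theorem r7_iA (n : ℕ) (w : F) : r7 n (iA (al7 ^ n) w) = rF7 (ss ℤ) (ss_eq ℤ) w := by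
  show rho7 _ _ (toA al7 n (iA (al7 ^ n) w)) = _
  rw [toA_iA, rho7_iA]

theorem r7_tA (n : ℕ) : r7 n (tA (al7 ^ n)) = mt7 (ss ℤ) ^ n := by
  show rho7 _ _ (toA al7 n (tA (al7 ^ n))) = _
  rw [toA_tA, map_pow, rho7_tA]

/-! ### The group `NN7` -/

/-- the automorphism `s ↦ -s` -/
def sg (R : Type) [CommRing R] : S7 R →+* S7 R where
  toFun z := ⟨z.re, -z.im⟩
  map_one' := by ext <;> simp
  map_zero' := by ext <;> simp
  map_add' x y := by
    apply QuadraticAlgebra.ext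
    · simp
    · simp; ring
  map_mul' x y := by
    apply QuadraticAlgebra.ext
    · simp only [QuadraticAlgebra.re_mul]; ring
    · simp only [QuadraticAlgebra.im_mul]; ring

theorem sg_apply {R : Type} [CommRing R] (z : S7 R) : sg R z = ⟨z.re, -z.im⟩ := rfl

theorem sg_ss (R : Type) [CommRing R] : sg R (ss R) = -ss R := by
  apply QuadraticAlgebra.ext
  · simp [sg_apply, ss]
  · simp [sg_apply, ss]

/-- The group of the matrices `[[a, s b], [s c, d]]` and `[[s a, b], [c, s d]]` of determinant one,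
`a, b, c, d ∈ O7`: the matrices with `tw g = ± g`. -/
abbrev NN7 : Subgroup (SL2 Z7) := NN (sg ℤ)

/-- the sign of the generators: `t ↦ 0`, `u, v ↦ 1` -/
def ch7 (n : ℕ) : GA (al7 ^ n) →* Multiplicative (ZMod 2) :=
  (liftA (liF (Multiplicative.ofAdd 1) (Multiplicative.ofAdd 1)) 1 (by
    apply compat
    · rw [al7_ga]
      simp only [map_mul, map_inv, liF_ga, liF_gb]
      decide
    · rw [al7_gb, liF_ga, liF_gb]
      decide) : GA al7 →* Multiplicative (ZMod 2)).comp (toA al7 n)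

/-! ### The homomorphism `N2A kp7 → SL₂(Z7) / ±1` -/

/-- the homomorphism `N2A kp7 → SL₂(R) / ±1` given by a root `s` -/
def Th7s {R : Type} [CommRing R] (s : R) (hs : s ^ 4 + s ^ 2 + 2 = 0) :
    N2A kp7 →* SL2 R ⧸ pm R :=
  ThK kp7 (rho7 s hs) (mk7 s hs) (mk_sq s hs)
    (by rw [rho7_iA, rF7_ga, mk_mu]) (by rw [rho7_iA, rF7_gb, mk_mv])
    (by rw [rho7_iA, rho7_tA, map_mul, rF7_ga, mk_mt])

theorem Th7s_iK {R : Type} [CommRing R] (s : R) (hs : s ^ 4 + s ^ 2 + 2 = 0) (g : G7) :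
    Th7s s hs (iK kp7 g) = pj R (rho7 s hs g) := ThK_iK _ _ _ _ _ _ _ _

theorem Th7s_kk {R : Type} [CommRing R] (s : R) (hs : s ^ 4 + s ^ 2 + 2 = 0) :
    Th7s s hs (AB.kk kp7) = pj R (mk7 s hs) := ThK_kk _ _ _ _ _ _ _

/-- the homomorphism `N2A kp7 → SL₂(Z7) / ±1` -/
def Th7 : N2A kp7 →* SL2 Z7 ⧸ pm Z7 := Th7s (ss ℤ) (ss_eq ℤ)

/-- BLOCK G for `d = 7`: `NN7 / ±1 → N2A kp7` -/
def S_G7 : Prop := ∃ Ψ : NN7 →* N2A kp7, ∀ x : NN7, Th7 (Ψ x) = pj Z7 x.val

end Pool.Agent.F8.D7
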