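import Pool.Agent.Lib.MP_305fdd_al.F8.OV.lo7
import Pool.Agent.Lib.MP_305fdd_al.F8.D7.Defs

/-!
# MP_305fdd_al, `d = 7`: the matrix of the monodromy `L² R`
-/

set_option autoImplicit false

namespace Pool.Agent.F8.D7

open Pool.Agent.MP_305fdd_al Pool.Agent.Lib.MP_305fdd_al Pool.Agent.F2X Pool.Agent.F8
  Pool.Agent.F8.HN Pool.Agent.F8.AB Pool.Agent.F8.OV
open scoped QuadraticAlgebra

theorem AM_al7 : (AM al7).val = !![4, 1; -1, 0] := by
  rw [AM_val, amat_eq]
  show !![vec (al7 ga) 0, vec (al7 gb) 0; vec (al7 ga) 1, vec (al7 gb) 1] = _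
  rw [al7_ga, al7_gb]
  simp only [vec_mul, vec_inv, vec_of]
  ext i j
  fin_cases i <;> fin_cases j <;> simp

/-- the matrix of the monodromy is hyperbolic -/
theorem hyp7 : Hyp (AM al7) := by
  refine ⟨?_, ?_⟩
  · rw [AM_al7, Matrix.det_fin_two_of]; norm_num
  · rw [AM_al7, Matrix.trace_fin_two_of]; norm_num

/-- the matrix of the monodromy is inverted by the matrix of `aX` -/
theorem inv7 : AM aX * AM al7 * (AM aX)⁻¹ = (AM al7)⁻¹ := by
  have hy : (AM aX).val = !![0, 1; 1, 0] := by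
    rw [AM_val, amat_eq]
    show !![vec (aX ga) 0, vec (aX gb) 0; vec (aX ga) 1, vec (aX gb) 1] = _
    simp
  have h1 : (AM aX)⁻¹ = AM aX := by
    rw [inv_eq_iff_mul_eq_one]
    apply Units.ext
    rw [Units.val_mul, hy, Matrix.mul_fin_two, Units.val_one, Matrix.one_fin_two]
    norm_num
  rw [h1]
  symm
  rw [inv_eq_iff_mul_eq_one]
  apply Units.ext
  rw [Units.val_mul, Units.val_mul, Units.val_mul, hy, AM_al7, Matrix.mul_fin_two,
    Matrix.mul_fin_two, Matrix.mul_fin_two, Units.val_one, Matrix.one_fin_two]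
  norm_num

/-- the local-global principle -/
theorem loc7 : Lo (AM al7) := lo_four AM_al7

end Pool.Agent.F8.D7
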