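import Pool.Agent.Lib.MP_305fdd_al.F8.D7.H7
import Pool.Agent.Lib.MP_305fdd_al.F8.D7.Lk
import Pool.Agent.Lib.MP_305fdd_al.F8.D7.Dom
import Pool.Agent.Lib.MP_305fdd_al.F8.D7.Lo7
import Pool.Agent.Lib.MP_305fdd_al.F8.AB.LocG
import Pool.Agent.Lib.MP_305fdd_al.F8.MainHN
import Pool.Agent.Lib.MP_305fdd_al.F8.MainO

/-!
# MP_305fdd_al, `d = 7`: assembly from the blocks NT, NA, E7, G7
-/

set_option autoImplicit false

namespace Pool.Agent.F8.D7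

open Pool.Agent.MP_305fdd_al Pool.Agent.Lib.MP_305fdd_al Pool.Agent.F2X Pool.Agent.F8
  Pool.Agent.F8.HN Pool.Agent.F8.AB
open scoped QuadraticAlgebra

theorem al_seven : NG.al (NG.Wd [] 1) = al7 := by
  apply aut_ext
  · show (NG.eL * NG.eL * NG.eR) ga = _
    rw [MulAut.mul_apply, MulAut.mul_apply, NG.eR_ga, map_mul, map_mul, NG.eL_ga, NG.eL_ga,
      NG.eL_x0, map_mul, NG.eL_x0, NG.eL_ga, al7_ga]
    unfold x0; group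
  · show (NG.eL * NG.eL * NG.eR) gb = _
    rw [MulAut.mul_apply, MulAut.mul_apply, NG.eR_gb, NG.eL_ga, NG.eL_ga, al7_gb]

theorem irr7 (n : ℕ) : Irr ((r7 n).comp (iA (al7 ^ n))) := by
  refine ⟨ga, gb, ?_⟩
  show tr (r7 n (iA (al7 ^ n) (ga * gb * ga⁻¹ * gb⁻¹))) ≠ 2
  rw [r7_iA, map_mul, map_mul, map_mul, map_inv, map_inv, rF7_ga, rF7_gb, tr_comm7]
  exact Z7_two

theorem p_Loc7 : S_Loc7 := by
  intro n hn
  have htr : (AM al7).val.trace = 4 := by rw [AM_al7, Matrix.trace_fin_two_of]; norm_num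
  have hdet : (AM al7).val.det = 1 := by rw [AM_al7, Matrix.det_fin_two_of]; norm_num
  exact loc_pow Pool.Agent.F2X.p_tr (AM al7) (by rw [htr]; norm_num)
    (Or.inr (by rw [htr, hdet]; norm_num)) n hn (al7 ^ n) (map_pow AM al7 n)

theorem hyp7n (n : ℕ) (hn : 1 ≤ n) : OV.Hyp (AM (al7 ^ n)) := by
  obtain ⟨h1, h2⟩ := NG.Wd_pow [] 1 al7 al_seven n hn
  exact ⟨h1, h2⟩

/-- the representation `ρ` has values in `NN7` -/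
theorem mem_NN {Λ : Type} [Group Λ] (ρ : Λ →* SL2 Z7) (χ : Λ →* Multiplicative (ZMod 2))
    (h1 : ∀ l, χ l = 1 → tw (sg ℤ) (ρ l) = ρ l) (h2 : ∀ l, χ l ≠ 1 → tw (sg ℤ) (ρ l) = -ρ l)
    (l : Λ) : ρ l ∈ NN7 := by
  by_cases h : χ l = 1
  · exact Or.inl (h1 l h)
  · exact Or.inr (h2 l h)

/-- the groups `GA (al7 ^ n)` are profinitely rigid, from the blocks NT, NA, E7, G7 -/
theorem rig7_of (hNT : S_NTG) (hNA : S_NAG) (hE : S_E7) (hG : S_G7) : S_rig7 := by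
  intro n hn Λ _ hΛ
  obtain ⟨hfg, hrf, hs⟩ := hΛ
  have := hfg
  have := (OV.p_fin (al7 ^ n)).1
  obtain ⟨Φ⟩ := exists_natBij hs.symm
  obtain ⟨nL, hsur, hC, hz⟩ := hNA (al7 ^ n) (hyp7n n hn) Λ hfg hrf hs Φ
  obtain ⟨T, s, j, hO⟩ := hNT [] 1 al7 al_seven n hn Z7 (r7 n) (irr7 n) Λ Φ nL hsur hC
  obtain ⟨χ, hχ1, hχ2, hχ3, hirr, hloc⟩ := p_lk7 n Λ Φ nL hsur hC T s j hO
  obtain ⟨ρ, hρ1, hρ2, hρ3⟩ := hE Λ (AlgebraicClosure ℚ) j hO.inj s T hO.char χ hχ1 hχ2 hχ3 hirr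
    hloc
  obtain ⟨Ψ, hΨ⟩ := hG
  obtain ⟨h, hh1, hh2⟩ := p_fst7 n Λ Φ nL hsur hC hz ρ (mem_NN ρ χ hρ2 hρ3)
    (fun S _ _ f l => by rw [hρ1]; exact hO.red S f l) Ψ hΨ
  exact all_secA (al7 ^ n) (p_Loc7 n hn) Λ Φ nL hfg hrf hs hsur hC h hh1 hh2

end Pool.Agent.F8.D7
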