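import Pool.Agent.Lib.MP_305fdd_al.F8.D7.Stm
import Pool.Agent.Lib.MP_305fdd_al.F8.AB.HLem
import Pool.Agent.Lib.MP_305fdd_al.F8.P.cmpA

/-!
# MP_305fdd_al, `d = 7`: block H7
-/

set_option autoImplicit false

namespace Pool.Agent.F8.D7

open Pool.Agent.MP_305fdd_al Pool.Agent.Lib.MP_305fdd_al Pool.Agent.F2X Pool.Agent.F8
  Pool.Agent.F8.HN Pool.Agent.F8.AB
open scoped QuadraticAlgebra

/-! ### Modulo a prime above `2` -/

private theorem key3 : ∀ a b c d a' b' c' d' : ZMod 2, a * d - b * c = 1 →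
    a' * d' - b' * c' = 1 → (a + d = 1 ∨ (a = 1 ∧ b = 0 ∧ c = 0 ∧ d = 1)) →
    (a' + d' = 1 ∨ (a' = 1 ∧ b' = 0 ∧ c' = 0 ∧ d' = 1)) →
    ((a * a' + b * c') + (c * b' + d * d') = 1 ∨ (a * a' + b * c' = 1 ∧ a * b' + b * d' = 0 ∧
      c * a' + d * c' = 0 ∧ c * b' + d * d' = 1)) := by decide

/-- the entries of the matrices in the alternating subgroup -/
def P3 (a b c d : ZMod 2) : Prop := a + d = 1 ∨ (a = 1 ∧ b = 0 ∧ c = 0 ∧ d = 1)

/-- the alternating subgroup of `SL₂(𝔽₂)` -/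
def A3 : Subgroup (SL2 (ZMod 2)) where
  carrier := {g | P3 (g.val 0 0) (g.val 0 1) (g.val 1 0) (g.val 1 1)}
  one_mem' := Or.inr ⟨rfl, rfl, rfl, rfl⟩
  mul_mem' := by
    intro g h hg hh
    show P3 _ _ _ _
    rw [G.SL_mul, G.SL_mul, G.SL_mul, G.SL_mul]
    exact key3 _ _ _ _ _ _ _ _ (G.SL_det g) (G.SL_det h) hg hh
  inv_mem' := by
    intro g hg
    have hg' : P3 (g.val 0 0) (g.val 0 1) (g.val 1 0) (g.val 1 1) := hg
    show P3 _ _ _ _
    rw [eq_mx g, mx_inv]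
    have key : ∀ a b c d : ZMod 2, P3 a b c d → P3 d (-b) (-c) a := by
      unfold P3; decide
    exact key _ _ _ _ hg'

theorem mem_A3 (g : SL2 (ZMod 2)) :
    g ∈ A3 ↔ P3 (g.val 0 0) (g.val 0 1) (g.val 1 0) (g.val 1 1) := Iff.rfl

/-- `s ↦ 1` -/
def h2 : Z7 →+* ZMod 2 := evs (Int.castRingHom (ZMod 2)) 1 (by decide)

/-- `s ↦ 2` -/
def h11 : Z7 →+* ZMod 11 := evs (Int.castRingHom (ZMod 11)) 2 (by decide)

theorem evs_ss {S : Type} [CommRing S] (f : ℤ →+* S) (s : S) (hs : s ^ 4 + s ^ 2 + 2 = 0) :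
    evs f s hs (ss ℤ) = s := by
  rw [evs_apply, ev7_apply, ev7_apply]
  simp [ss]

/-- a copy of a proof, with its type in the form which the arguments of `rho7` have -/
theorem cpy {R : Type} [CommRing R] (s : R) (hs : s ^ 4 + s ^ 2 + 2 = 0) :
    s ^ 4 + s ^ 2 + 2 = 0 := hs

/-- the equation of `ss ℤ`, with the type in the form which the arguments of `rho7` have -/
theorem ssz : type_of% (cpy (ss ℤ) (ss_eq ℤ)) := cpy (ss ℤ) (ss_eq ℤ)

theorem r7z (n : ℕ) (w : F) : r7 n (iA (al7 ^ n) w) = rF7 (ss ℤ) ssz w := r7_iA n w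

theorem Th7z_iK (g : G7) : Th7 (iK kp7 g) = pj Z7 (rho7 (ss ℤ) ssz g) := Th7s_iK _ _ _

theorem Th7z_kk : Th7 (AB.kk kp7) = pj Z7 (mk7 (ss ℤ) ssz) := Th7s_kk _ _

/-- base change of `rF7` -/
theorem map_rF7 {R S : Type} [CommRing R] [CommRing S] (g : R →+* S) (s : R)
    (hs : s ^ 4 + s ^ 2 + 2 = 0) (w : F) : SLm g (rF7 s hs w) = rF7 (g s) (map_s7 g hs) w := by
  have h := DFunLike.congr_fun (map_rho7 g s hs) (iA al7 w)
  rw [MonoidHom.comp_apply, rho7_iA, rho7_iA] at h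
  exact h

/-- the matched homomorphism -/
theorem comp_r7 {S : Type} [CommRing S] (f : ℤ →+* S) (s : S) (hs : s ^ 4 + s ^ 2 + 2 = 0) (n : ℕ)
    (w : F) : ((SLm (evs f s hs)).comp (r7 n)) (iA (al7 ^ n) w) = rF7 s hs w := by
  rw [MonoidHom.comp_apply, r7z, map_rF7]
  congr 1
  simp only [evs_ss]

/-- `F` maps to `A3` -/
theorem F_A3 (w : F) : rF7 (1 : ZMod 2) (by decide) w ∈ A3 := by
  have hu : mu7 (1 : ZMod 2) ∈ A3 := by
    rw [mem_A3]; unfold mu7 P3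
    left; decide
  have hv : mv7 (1 : ZMod 2) (by decide) ∈ A3 := by
    rw [mem_A3]; unfold mv7 P3
    left; decide
  have e : A3.subtype.comp (liF ⟨mu7 (1 : ZMod 2), hu⟩ ⟨mv7 (1 : ZMod 2) (by decide), hv⟩) =
      rF7 (1 : ZMod 2) (by decide) := by
    apply hom_ext
    · show A3.subtype (liF _ _ ga) = _
      rw [liF_ga, rF7_ga]; rfl
    · show A3.subtype (liF _ _ gb) = _
      rw [liF_gb, rF7_gb]; rfl
  rw [← DFunLike.congr_fun e w]
  exact Subtype.property _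

theorem mk_A3 (g : SL2 (ZMod 2)) (hg : g ∈ A3) : g * mk7 (1 : ZMod 2) (by decide) ∉ A3 := by
  intro h
  rw [mem_A3] at hg h
  rw [eq_mx g] at h
  unfold mk7 at h
  rw [mx_mul] at h
  have key : ∀ a b c d : ZMod 2, a * d - b * c = 1 → P3 a b c d →
      ¬ P3 (a * (1 + 1 ^ 2) + b * -1) (a * 1 + b * (-1 - 1 ^ 2)) (c * (1 + 1 ^ 2) + d * -1)
        (c * 1 + d * (-1 - 1 ^ 2)) := by
    unfold P3; decide
  exact key _ _ _ _ (G.SL_det g) hg h

theorem neg_A3 (g : SL2 (ZMod 2)) : -g = g := by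
  apply G.SL_ext <;> rw [G.SL_neg] <;> exact (by decide : ∀ x : ZMod 2, -x = x) _

/-! ### The trace of the commutator -/

section comm

variable {R : Type} [CommRing R]

theorem tr_comm7 (s : R) (hs : s ^ 4 + s ^ 2 + 2 = 0) :
    tr (mu7 s * mv7 s hs * (mu7 s)⁻¹ * (mv7 s hs)⁻¹) = -2 := by
  have h1 : mu7 s * mv7 s hs = mx (-1) (s ^ 3 - s) (-s - s ^ 3) (1 - 2 * s ^ 2)
      (by linear_combination (s ^ 2 - 1) * hs) := by
    unfold mu7 mv7
    rw [mx_mul]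
    apply mx_congr
    · ring
    · ring
    · ring
    · linear_combination (s ^ 2 - 2) * hs
  have h2 : mv7 s hs * mu7 s = mx (-3 - 2 * s ^ 2) (s ^ 3 - 3 * s) (s - s ^ 3) 3
      (by linear_combination (s ^ 2 - 5) * hs) := by
    unfold mu7 mv7
    rw [mx_mul]
    apply mx_congr
    · ring
    · linear_combination (2 * s) * hs
    · ring
    · linear_combination (s ^ 2 - 2) * hs
  have h3 : mu7 s * mv7 s hs * (mu7 s)⁻¹ * (mv7 s hs)⁻¹ =
      (mu7 s * mv7 s hs) * (mv7 s hs * mu7 s)⁻¹ := by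
    simp only [mul_inv_rev, mul_assoc]
  rw [h3, h1, h2, mx_inv, mx_mul, mx_tr]
  linear_combination (2 * (s ^ 2 - 1)) * hs

end comm

theorem comm_pm {R : Type} [CommRing R] (a b x y : SL2 R) (e : x * y = y * x)
    (ha : a = x ∨ a = -x) (hb : b = y ∨ b = -y) : a * b = b * a := by
  rcases ha with rfl | rfl <;> rcases hb with rfl | rfl
  · exact e
  · rw [mul_neg, neg_mul, e]
  · rw [mul_neg, neg_mul, e]
  · rw [neg_mul_neg, neg_mul_neg, e]

theorem SLm_neg' {R S : Type} [CommRing R] [CommRing S] (f : R →+* S) (g : SL2 R) :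
    SLm f (-g) = -SLm f g := by
  apply G.SL_ext <;> simp [SLm, Matrix.SpecialLinearGroup.map_apply_coe]

theorem comm_one {G : Type} [Group G] {a b : G} (e : a * b = b * a) : a * b * a⁻¹ * b⁻¹ = 1 := by
  rw [e, mul_inv_cancel_right, mul_inv_cancel]

/-! ### Block H7 -/

/-- the reduction modulo the prime above `2` of the kernel of `nL` -/
theorem red2 (n : ℕ) (Λ : Type) [Group Λ] (Φ : NatBij (GA (al7 ^ n)) Λ)
    (nL : Λ →* Multiplicative ℤ) (hsur : Function.Surjective nL) (hcm : CmG Φ (nA (al7 ^ n)) nL)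
    (ρ : Λ →* SL2 Z7)
    (hρ : ∀ l : Λ, h2 (tr (ρ l)) = tr (Φ.toFun _ ((SLm h2).comp (r7 n)) l)) (x : Λ)
    (hx : nL x = 1) : SLm h2 (ρ x) ∈ A3 := by
  set σ := Φ.toFun _ ((SLm h2).comp (r7 n)) with hσ
  have htr : ∀ l, tr (SLm h2 (ρ l)) = tr (σ l) := fun l => by rw [← hρ l, tr_map]
  have hcmp := p_cmpA (al7 ^ n) Λ Φ nL hsur hcm (SL2 (ZMod 2)) ((SLm h2).comp (r7 n))
  have hker : ∀ z : Λ, nL z = 1 → σ z ∈ A3 := by
    intro z hz
    obtain ⟨g, hg1, hg2⟩ := (hcmp (σ z) 1).2 ⟨z, hz, rfl⟩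
    obtain ⟨w, rfl⟩ := GA_ker _ g hg1
    rw [← hg2]
    have e : ((SLm h2).comp (r7 n)) (iA (al7 ^ n) w) = rF7 (1 : ZMod 2) (by decide) w :=
      comp_r7 (Int.castRingHom (ZMod 2)) 1 (by decide) n w
    rw [e]
    exact F_A3 w
  obtain ⟨y, hy1, hy2⟩ := (hcmp (mu7 (1 : ZMod 2)) 1).1 ⟨iA (al7 ^ n) ga, nA_iA _ _, by
    rw [← rF7_ga (1 : ZMod 2) (by decide)]
    exact comp_r7 (Int.castRingHom (ZMod 2)) 1 (by decide) n ga⟩
  by_contra hA
  have h1 : tr (SLm h2 (ρ x)) ≠ 1 := fun e => hA (Or.inl (by rw [← tr_eq]; exact e))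
  have h3 : σ x = 1 := by
    rcases hker x hx with h | ⟨ha, hb, hc, hd⟩
    · exact absurd (by rw [htr x, tr_eq]; exact h) h1
    · rw [mx_one]
      exact G.SL_ext ha hb hc hd
  have h4 : tr (SLm h2 (ρ y)) = 1 := by
    rw [htr y]
    have : σ y = mu7 (1 : ZMod 2) := hy2
    rw [this]; unfold mu7; rw [mx_tr]; decide
  have h5 : SLm h2 (ρ y) ∈ A3 := Or.inl (by rw [← tr_eq]; exact h4)
  have h6 : SLm h2 (ρ (x * y)) ∉ A3 := by
    intro h
    apply hA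
    rw [map_mul, map_mul] at h
    exact (Subgroup.mul_mem_cancel_right _ h5).1 h
  apply h6
  left
  rw [← tr_eq, htr, map_mul, h3, one_mul, ← htr, h4]

/-- BLOCK H7 -/
theorem p_fst7 : S_fst7 := by
  intro n Λ _ Φ nL hsur hcm hz ρ hN hρ Ψ hΨ
  -- the homomorphism to `N2A kp7`
  obtain ⟨f, hf⟩ : ∃ f : Λ →* N2A kp7, ∀ l, Th7 (f l) = pj Z7 (ρ l) :=
    ⟨Ψ.comp (ρ.codRestrict NN7 hN), fun l => hΨ (ρ.codRestrict NN7 hN l)⟩
  have hnu : ∀ x : Λ, nL x = 1 → nuK kp7 (f x) = 1 := fun x hx =>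
    hz ((nuK kp7).comp f) hx
  have hep : ∀ x : Λ, nL x = 1 → epK kp7 (f x) = 1 := by
    intro x hx
    obtain ⟨g, hg | hg⟩ := K_cases kp7 (f x)
    · rw [hg]; rfl
    · exfalso
      have h1 := hnu x hx
      rw [hg, map_mul, nuK_kk, mul_one, nuK_iK] at h1
      obtain ⟨w, rfl⟩ := GA_ker _ g h1
      have h2' : pj Z7 (ρ x) = pj Z7 (rF7 (ss ℤ) ssz w * mk7 (ss ℤ) ssz) := by
        have e1 : Th7 (iK kp7 (iA al7 w)) = pj Z7 (rF7 (ss ℤ) ssz w) := by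
          rw [← rho7_iA]; exact Th7z_iK _
        have e2 : Th7 (AB.kk kp7) = pj Z7 (mk7 (ss ℤ) ssz) := Th7z_kk
        exact (hf x).symm.trans ((congrArg Th7 hg).trans ((map_mul Th7 _ _).trans
          ((congrArg₂ (· * ·) e1 e2).trans (map_mul (pj Z7) _ _).symm)))
      have h3 := red2 n Λ Φ nL hsur hcm ρ (hρ (ZMod 2) h2) x hx
      have h4 : SLm h2 (rF7 (ss ℤ) ssz w * mk7 (ss ℤ) ssz) =
          rF7 (1 : ZMod 2) (by decide) w * mk7 (1 : ZMod 2) (by decide) := by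
        rw [map_mul]
        congr 1
        · rw [← r7z n]
          exact comp_r7 (Int.castRingHom (ZMod 2)) 1 (by decide) n w
        · unfold mk7
          rw [mx_map]
          have e : h2 (ss ℤ) = 1 := evs_ss _ _ _
          apply mx_congr <;> simp only [map_add, map_sub, map_neg, map_pow, map_one, e]
      apply mk_A3 _ (F_A3 w)
      rw [← h4]
      rcases pj_eq h2' with h | h
      · rw [← h]; exact h3
      · have e := neg_A3 (SLm h2 (rF7 (ss ℤ) ssz w * mk7 (ss ℤ) ssz))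
        rw [← SLm_neg', ← h] at e
        rw [← e]; exact h3
  obtain ⟨h, hh1, hh2⟩ := exF kp7 f nL hep hnu
  refine ⟨h, hh2, fun hc => ?_⟩
  have hcomm := cyc_comm h hc
  -- `ρ x = ± rF7 (h x)`
  have hpm : ∀ x : nL.ker, ρ x = rF7 (ss ℤ) ssz (h x) ∨
      ρ x = -rF7 (ss ℤ) ssz (h x) := by
    intro x
    apply pj_eq
    rw [← hf x, hh1 x]
    rw [Th7z_iK, rho7_iA]
  have hρc : ∀ x y : nL.ker, ρ x * ρ y = ρ y * ρ x := by
    intro x y
    refine comm_pm _ _ (rF7 (ss ℤ) ssz (h x)) (rF7 (ss ℤ) ssz (h y)) ?_ (hpm x) (hpm y)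
    exact (map_mul _ _ _).symm.trans ((congrArg _ (hcomm x y)).trans (map_mul _ _ _))
  -- reduction modulo `11`
  set σ := Φ.toFun _ ((SLm h11).comp (r7 n)) with hσ
  have hcmp := p_cmpA (al7 ^ n) Λ Φ nL hsur hcm (SL2 (ZMod 11)) ((SLm h11).comp (r7 n))
  obtain ⟨x, hx1, hx2⟩ := (hcmp (mu7 (2 : ZMod 11)) 1).1 ⟨iA (al7 ^ n) ga, nA_iA _ _, by
    rw [← rF7_ga (2 : ZMod 11) (by decide)]
    exact comp_r7 (Int.castRingHom (ZMod 11)) 2 (by decide) n ga⟩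
  obtain ⟨y, hy1, hy2⟩ := (hcmp (mv7 (2 : ZMod 11) (by decide)) 1).1
    ⟨iA (al7 ^ n) gb, nA_iA _ _, by
    rw [← rF7_gb (2 : ZMod 11) (by decide)]
    exact comp_r7 (Int.castRingHom (ZMod 11)) 2 (by decide) n gb⟩
  have h1 : ρ (x * y * x⁻¹ * y⁻¹) = 1 := by
    have e : ρ x * ρ y = ρ y * ρ x := hρc ⟨x, hx1⟩ ⟨y, hy1⟩
    rw [map_mul, map_mul, map_mul, map_inv, map_inv]
    exact comm_one e
  have h3 := hρ (ZMod 11) h11 (x * y * x⁻¹ * y⁻¹)
  rw [h1, map_mul, map_mul, map_mul, map_inv, map_inv] at h3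
  have e1 : σ x = mu7 (2 : ZMod 11) := hx2
  have e2 : σ y = mv7 (2 : ZMod 11) (by decide) := hy2
  rw [← hσ, e1, e2, tr_comm7, mx_one, mx_tr, map_add, map_one] at h3
  exact absurd h3 (by decide)

end Pool.Agent.F8.D7
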