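import Pool.Agent.Lib.MP_305fdd_al.F8.D7.Fin
import Pool.Agent.Lib.MP_305fdd_al.F8.D7.E.Main
import Pool.Agent.Lib.MP_305fdd_al.F8.D7.G.End
import Pool.Agent.Lib.MP_305fdd_al.F8.NG.T.Main
import Pool.Agent.Lib.MP_305fdd_al.F8.NG.A.Main

/-!
# MP_305fdd_al, `d = 7`: the groups `GA (al7 ^ n)` and their overgroups are profinitely rigid
-/

set_option autoImplicit false

namespace Pool.Agent.F8.D7

open Pool.Agent.MP_305fdd_al Pool.Agent.Lib.MP_305fdd_al Pool.Agent.F2X Pool.Agent.F8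
  Pool.Agent.F8.HN Pool.Agent.F8.AB Pool.Agent.F8.OV

/-- the groups `GA (al7 ^ n)`, `n ≥ 1`, are profinitely rigid -/
theorem rig7 : S_rig7 := rig7_of NG.T.all_NTG NG.A.all_NAG p_E7 p_G7

/-- rigidity and regularity -/
theorem reg7 (n : ℕ) (hn : 0 < n) : ProfinitelyRigid (GA (al7 ^ n)) ∧ Reg (al7 ^ n) :=
  ⟨rig7 n hn, NG.A.all_NAG (al7 ^ n) (hyp7n n hn)⟩

/-- the overgroups of the groups `GA (al7 ^ n)` -/
theorem over7 (Γ : Type) [Group Γ] (N : Subgroup Γ) (n : ℕ) (hn : 0 < n) (hN : N.Normal)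
    (hi : N.FiniteIndex) (e : Nonempty (N ≃* GA (al7 ^ n)))
    (hK : ∀ K : Subgroup Γ, K.Normal → Finite K → K = ⊥) : ProfinitelyRigid Γ :=
  all_OV al7 hyp7 loc7 ⟨_, inv7⟩ reg7 Γ N n hn hN hi e hK

/-- the groups `F ⋊_β ℤ` for the roots `β` of the powers of `al7` -/
theorem cyc7 (β : MulAut F) (n k : ℕ) (hn : 0 < n) (hk : 0 < k)
    (hb : AM β ^ k = AM al7 ^ n) : ProfinitelyRigid (GA β) :=
  over7 (GA β) (subA β k) n hn (by unfold subA; infer_instance) (subA_fi β k hk)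
    (GA_contains all_out al7 β n k hk hb) fun K _ hf => GA_nf β K hf

end Pool.Agent.F8.D7
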