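import Pool.Agent.Lib.MP_305fdd_al.F8.D7.Main
import Pool.Agent.Lib.MP_305fdd_al.F8.AB.Mod

/-!
# MP_305fdd_al, `d = 7`: the groups `GA (al7 ^ n)` as Kleinian groups
-/

set_option autoImplicit false

namespace Pool.Agent.F8.D7

open Pool.Agent.MP_305fdd_al Pool.Agent.Lib.MP_305fdd_al Pool.Agent.F2X Pool.Agent.F8
  Pool.Agent.F8.HN Pool.Agent.F8.AB Pool.Agent.F8.OV

/-- the representation of `G7` in `SL₂(Z7) / ±1` is faithful -/
theorem faith7 (g : G7) (h : pj Z7 (rho7 (ss ℤ) (ss_eq ℤ) g) = 1) : g = 1 := by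
  have h1 : Th7 (iK kp7 g) = 1 := by
    show Th7s _ _ _ = _
    rw [Th7s_iK, h]
  have h2 := PG.Th_inj _ h1
  apply iK_injective kp7
  rw [h2, map_one]

variable (s : ℂ) (hs : s ^ 4 + s ^ 2 + 2 = 0)

/-- the embedding of `Z7` -/
noncomputable def jC : Z7 →+* ℂ := evs (Int.castRingHom ℂ) s hs

theorem jC_injective : Function.Injective (jC s hs) := (NG.T.p_ji Z7).1 ℂ (jC s hs)

theorem jC_ss : jC s hs (ss ℤ) = s := evs_ss _ _ _

theorem jC_rho (g : G7) : SLm (jC s hs) (rho7 (ss ℤ) (ss_eq ℤ) g) = rho7 s hs g := by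
  have h := DFunLike.congr_fun (map_rho7 (jC s hs) (ss ℤ) (ss_eq ℤ)) g
  have h1 : SLm (jC s hs) (rho7 (ss ℤ) (ss_eq ℤ) g) =
    rho7 (jC s hs (ss ℤ)) (map_s7 (jC s hs) (ss_eq ℤ)) g := h
  rw [h1]
  congr 1
  simp only [jC_ss]

/-- the representation of `G7` in `PSL₂(ℂ)` -/
theorem rP7 (g : G7) : rP (jC s hs) (rho7 (ss ℤ) (ss_eq ℤ)) g = pc (rho7 s hs g) := by
  show pc (SLm (jC s hs) _) = _
  rw [jC_rho]

/-- the group of the `n`-fold cyclic cover of the bundle with monodromy `L² R` -/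
noncomputable def K7 (n : ℕ) : Subgroup PC :=
  Subgroup.closure {pc (mu7 s), pc (mv7 s hs), pc (mt7 s) ^ n}

theorem K7_eq (n : ℕ) : K7 s hs n = KP (jC s hs) (rho7 (ss ℤ) (ss_eq ℤ)) n := by
  unfold K7 KP
  rw [rP7, rP7, rP7, rho7_iA, rho7_iA, rho7_tA, rF7_ga, rF7_gb]

/-- `K7 n` is isomorphic to `GA (al7 ^ n)` -/
theorem K7_equiv (n : ℕ) (hn : 0 < n) : Nonempty (GA (al7 ^ n) ≃* K7 s hs n) :=
  ⟨(kpE (jC s hs) (rho7 (ss ℤ) (ss_eq ℤ)) (jC_injective s hs) faith7 n hn).trans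
    (MulEquiv.subgroupCongr (K7_eq s hs n).symm)⟩

theorem s_ne (hs : s ^ 4 + s ^ 2 + 2 = 0) : s ≠ 0 := by
  rintro rfl
  norm_num at hs

/-- `t ^ n` -/
theorem K7_up (n : ℕ) : pc (up (n * s)) ∈ K7 s hs n := by
  have h : pc (mt7 s) ^ n ∈ K7 s hs n := Subgroup.subset_closure (by simp)
  rw [← map_pow] at h
  have e : mt7 s = up s := rfl
  rwa [e, up_pow] at h

/-- `u t ^ n u⁻¹` -/
theorem K7_lo (n : ℕ) : pc (lo (n * -s)) ∈ K7 s hs n := by
  have h1 : pc (mt7 s) ^ n ∈ K7 s hs n := Subgroup.subset_closure (by simp)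
  have h2 : pc (mu7 s) ∈ K7 s hs n := Subgroup.subset_closure (by simp)
  have h3 := mul_mem (mul_mem h2 h1) (inv_mem h2)
  rw [← map_pow, ← map_inv, ← map_mul, ← map_mul] at h3
  have e : mu7 s * mt7 s ^ n * (mu7 s)⁻¹ = lo (n * -s) := by
    have e1 : mt7 s = up s := rfl
    rw [e1, up_pow]
    unfold mu7 up lo
    rw [mx_inv, mx_mul, mx_mul]
    apply mx_congr <;> ring
  rwa [e] at h3

/-- all subgroups of `PSL₂(ℂ)` which contain `K7 n` as a normal subgroup of finite index -/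
theorem klein7 (n : ℕ) (hn : 0 < n) (Γ : Subgroup PC) (hle : K7 s hs n ≤ Γ)
    (hN : ((K7 s hs n).subgroupOf Γ).Normal) (hi : ((K7 s hs n).subgroupOf Γ).FiniteIndex) :
    ProfinitelyRigid Γ := by
  obtain ⟨e⟩ := K7_equiv s hs n hn
  refine over7 Γ ((K7 s hs n).subgroupOf Γ) n hn hN hi
    ⟨(Subgroup.subgroupOfEquivOfLe hle).trans e.symm⟩ fun K hK hf => ?_
  have hn' : (n : ℂ) ≠ 0 := by exact_mod_cast hn.ne'
  exact no_finite_normal' Γ (mul_ne_zero hn' (s_ne s hs))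
    (mul_ne_zero hn' (neg_ne_zero.2 (s_ne s hs))) (hle (K7_up s hs n)) (hle (K7_lo s hs n)) K hK hf

/-! ### The matrix -/

theorem hyp7' (n : ℕ) (hn : 0 < n) : Hyp (AM (al7 ^ n)) := hyp7n n hn

/-- all groups without non-trivial finite normal subgroups which contain `GA β` as a normal subgroup of finite
index, if the matrix of `β ^ k` is conjugate to that of `al7 ^ n` -/
theorem gen7 (β : MulAut F) (n k : ℕ) (hn : 0 < n) (hk : 0 < k) (X : GL (Fin 2) ℤ)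
    (hb : X * AM β ^ k * X⁻¹ = AM al7 ^ n) (Γ : Type)
    [Group Γ] (N : Subgroup Γ) (hN : N.Normal) (hi : N.FiniteIndex) (e : N ≃* GA β)
    (hK : ∀ K : Subgroup Γ, K.Normal → Finite K → K = ⊥) : ProfinitelyRigid Γ :=
  over_gen al7 hyp7' (fun Γ _ N n hn hN hi e hK => over7 Γ N n hn hN hi e hK) β n k hn hk X hb Γ N
    hN hi e hK

end Pool.Agent.F8.D7
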